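import Pool.Agent.Results.MP_9b0515_pr.HalfSpacesNotOptimal
import Pool.Agent.Y379.NS.Loc

set_option autoImplicit false

/-!
# Periodic half spaces are not even local maximisers of the noise stability

The starting file `HalfSpacesNotOptimal` gives, for every `n ≥ 3` and `1/2 < ρ < 1`, one periodic set which
is strictly more noise stable than every periodic half space. Here: for these `n` and `ρ` every periodic
half space `B` has, for every `ε > 0`, a more noise stable periodic set whose symmetric difference with `B`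
has Gaussian measure less than `ε`. Moreover the set of all noise stabilities of periodic sets is an
interval in which the common value `σ` of the periodic half spaces is not the right end, and the periodic
sets which beat all half spaces form an open set.
-/

open MeasureTheory ProbabilityTheory Set
open scoped Real NNReal

namespace Pool.Agent.Results.MP_9b0515_pr.NotLocallyOptimal

open Pool.Agent.Results.MP_9b0515_pr.HalfSpacesNotOptimal

/-- the set of the noise stabilities of the periodic sets -/
def values (n : ℕ) (ρ : ℝ) : Set ℝ := {r | ∃ Ω : Set (Fin n → ℝ), IsPeriodicSet n Ω ∧ noiseStability n ρ Ω = r}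

theorem B1_periodic {n : ℕ} (hn : 0 < n) : IsPeriodicSet n (B1 n) := by
  have hflip0 : HalfSpacesNotOptimal.flip (∅ : Set (Fin n → ℝ)) = B1 n := by
    ext x
    simp [HalfSpacesNotOptimal.flip]
  rw [← hflip0]
  exact isPeriodic_flip n hn MeasurableSet.empty (by simp) (by simp)

theorem half_exists (n : ℕ) : IsPeriodicHalfSpace n (B1 n) := by
  refine ⟨fun _ => 1, fun _ => Or.inl rfl, ?_⟩
  unfold B1
  simp

/-- (1) For `n ≥ 3` and `1/2 < ρ < 1` no periodic half space `B` is a local maximiser: for every `ε > 0`
some periodic set whose symmetric difference with `B` has Gaussian measure less than `ε` is strictly more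
noise stable than `B`.

(2) For `n ≥ 3` and `1/2 < ρ < 1` all periodic half spaces have the same noise stability `σ`, all numbers of
some interval `[σ, τ]` with `σ < τ` are noise stabilities of periodic sets, and for every periodic set `Ω`
with noise stability larger than `σ` there is an `ε > 0` such that this holds for all periodic sets whose
symmetric difference with `Ω` has Gaussian measure less than `ε`.

(3) For all `n ≥ 1` and `0 ≤ ρ ≤ 1` the noise stabilities of periodic sets form an interval (a set which
contains all numbers between any two of its elements).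

(4) The noise stability is Lipschitz continuous, with constant `2`, for the Gaussian measure of the
symmetric difference. -/
theorem result :
    (∀ n : ℕ, 3 ≤ n → ∀ ρ : ℝ, 1 / 2 < ρ → ρ < 1 → ∀ B : Set (Fin n → ℝ), IsPeriodicHalfSpace n B →
      ∀ ε > 0, ∃ Ω : Set (Fin n → ℝ), IsPeriodicSet n Ω ∧ (stdGauss n).real (symmDiff Ω B) < ε ∧
        noiseStability n ρ B < noiseStability n ρ Ω) ∧
    (∀ n : ℕ, 3 ≤ n → ∀ ρ : ℝ, 1 / 2 < ρ → ρ < 1 → ∃ σ τ : ℝ, σ < τ ∧
      (∀ B : Set (Fin n → ℝ), IsPeriodicHalfSpace n B → noiseStability n ρ B = σ) ∧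
      Icc σ τ ⊆ values n ρ ∧
      ∀ Ω : Set (Fin n → ℝ), IsPeriodicSet n Ω → σ < noiseStability n ρ Ω →
        ∃ ε > 0, ∀ Ω' : Set (Fin n → ℝ), IsPeriodicSet n Ω' →
          (stdGauss n).real (symmDiff Ω Ω') < ε → σ < noiseStability n ρ Ω') ∧
    (∀ n : ℕ, 1 ≤ n → ∀ ρ : ℝ, 0 ≤ ρ → ρ ≤ 1 → (values n ρ).OrdConnected) ∧
    ∀ (n : ℕ) (ρ : ℝ), 0 ≤ ρ → ρ ≤ 1 → ∀ A B : Set (Fin n → ℝ), MeasurableSet A → MeasurableSet B →
      |noiseStability n ρ A - noiseStability n ρ B| ≤ 2 * (stdGauss n).real (symmDiff A B) := by
  refine ⟨fun n hn ρ h0 h1 B hB ε hε => Y379.NS.not_local hn h0 h1 hB hε, ?_, fun n hn ρ h0 h1 => ⟨?_⟩,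
    fun n ρ h0 h1 A B hA hB => Y379.NS.lip h0 h1 hA hB⟩
  · intro n hn ρ h0 h1
    obtain ⟨Ω, hΩ, hbeat⟩ := HalfSpacesNotOptimal.result n hn ρ h0 h1
    refine ⟨noiseStability n ρ (B1 n), noiseStability n ρ Ω, hbeat _ (half_exists n), fun B hB =>
      stability_halfSpace n ρ hB, ?_, ?_⟩
    · rintro r ⟨hr1, hr2⟩
      exact Y379.NS.between (by omega) (by linarith) h1.le (B1_periodic (by omega)) hΩ hr1 hr2
    · intro A hA hlt
      refine ⟨(noiseStability n ρ A - noiseStability n ρ (B1 n)) / 2, by linarith, fun A' hA' hd => ?_⟩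
      have h := Y379.NS.lip (by linarith : (0 : ℝ) ≤ ρ) h1.le hA.1 hA'.1
      have h2 := le_abs_self (noiseStability n ρ A - noiseStability n ρ A')
      linarith
  · rintro _ ⟨A, hA, rfl⟩ _ ⟨B, hB, rfl⟩ r ⟨hr1, hr2⟩
    exact Y379.NS.between (by omega) h0 h1 hA hB hr1 hr2

end Pool.Agent.Results.MP_9b0515_pr.NotLocallyOptimal
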